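import Pool.Agent.Q45.NE.DensC
import Pool.Agent.Q45.NE.Dt

/-!
# Project SN: the Galois group of `F(t, G(t) + v₁ t + v₀)` is the full symmetric group for almost all `v`

Statements of the parts. Each statement has its proof in the docstring.
-/

set_option autoImplicit false
set_option linter.all false

open Polynomial
open scoped Classical

namespace Pool.Agent.Q45.SN

open Pool.Agent.Q45.HI (spc)
open Pool.Agent.W275.UB (UD)
open Pool.Agent.Q45.TG (ds)
open Pool.Agent.Q45.NE (eG sec Phi2 quo DT)

/-- The polynomial is separable, and every permutation of its roots in the separable closure is induced by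
an automorphism. -/
def Full {k : Type} [Field k] (p : k[X]) : Prop :=
  p.Separable ∧ ∀ π : Equiv.Perm (p.rootSet (SeparableClosure k)),
    ∃ σ : SeparableClosure k ≃ₐ[k] SeparableClosure k,
      ∀ x : p.rootSet (SeparableClosure k), σ (x : SeparableClosure k) = (π x : SeparableClosure k)

/-- Some automorphism of the separable closure exchanges two roots and fixes the other ones. -/
def HasSwap {k : Type} [Field k] (p : k[X]) : Prop :=
  ∃ (σ : SeparableClosure k ≃ₐ[k] SeparableClosure k) (a b : SeparableClosure k), a ≠ b ∧
    aeval a p = 0 ∧ aeval b p = 0 ∧ σ a = b ∧ σ b = a ∧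
    ∀ c : SeparableClosure k, aeval c p = 0 → c ≠ a → c ≠ b → σ c = c

/-- The section `G(T) + v₁ T + v₀` over the extension `κ : k → K`. -/
noncomputable def sct {k K : Type} [Field k] [Field K] (κ : k →+* K) (G : k[X]) (v0 v1 : K) : K[X] :=
  G.map κ + C v1 * X + C v0

/-- The polynomial `F(T, G(T) + v₁ T + v₀)`. -/
noncomputable def vct {k K : Type} [Field k] [Field K] (κ : k →+* K) (F : k[X][X]) (G : k[X])
    (v0 v1 : K) : K[X] :=
  (F.map (mapRingHom κ)).eval (sct κ G v0 v1)

/-- JOB TAN. The generic tangent section is simply tangent (a form of biduality in characteristic zero).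

PROOF. `K = FractionRing (AdjoinRoot F)`, `t, w` the images of `of X`, `root`; `K` is algebraic and separable
over `k(t)`, so the derivation `d / dt` of `k(t)` extends to a derivation `D` of `K` with `D t = 1`, `D = 0`
on `k`. (Elementary construction: on `k[t][w]` let `D₀` be the coefficientwise derivative `ds`, and put
`D z = D₀ z(w) - F_t(t,w) / F_w(t,w) · z_w(t,w)`; here `F_w(t,w) ≠ 0`, see `exists_kappa` of NE/DensC; or
use Mathlib's `Differential`, `Derivation` on localizations and separable extensions.) Put `y = w - G(t)`,
`v1 = D y`, `v0 = y - t v1`. Then `D v1 = y''` and `D v0 = - t y''`. Let `s(T) = G(T) + v1 T + v0`,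
`e(T) = F(T, s(T))`, `φ(T) = F_w(T, s(T))` in `K[T]`. `s(t) = w`, so `e(t) = 0`, and
`e'(t) = F_t(t,w) + (G'(t) + v1) F_w(t,w) = F_t + (D w) F_w = D (F(t,w)) = 0`; so `(T - t)^2 ∣ e`.
Let `D` act on `K[T]` coefficientwise (`D T = 0`). Then `D e = (T D v1 + D v0) φ(T) = y'' (T - t) φ(T)` (*).
(a) `y'' ≠ 0`: else `D v1 = D v0 = 0`, so `e(T)` is a nonzero polynomial (its degree is `n d`, see
`eval_lead` of NE/DensC) with coefficients in the field of constants `K₀ = ker D`, so `t` is algebraic over
`K₀`; for the minimal polynomial `m` over `K₀`, `0 = D (m(t)) = m'(t)`, a contradiction in characteristic 0.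
(b) `v1` is transcendental over `k`: otherwise `D v1 = 0` in the same way.
(c) Let `q` be an irreducible polynomial over `K`, not associated to `T - t`, with `q^2 ∣ e`. Then `q` divides
`D e`, so by (*) `q ∣ φ`, and `q ∣ e' = F_t(T,s(T)) + s'(T) φ(T)`, so `q ∣ F_t(T,s(T))`; evaluating the
identity `a F + b F_w + c F_t = 1` at `(T, s(T))` one gets `q ∣ 1`, a contradiction. In the same way if
`(T - t)^3 ∣ e` then `(T - t)^2 ∣ D e` (note that `D (T - t) = - 1`), so `(T - t) ∣ φ`, `(T-t) ∣ e'`, and
again `(T - t) ∣ 1`. So `e = (T - t)^2 g` with `g` squarefree, hence separable (characteristic zero), and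
`g(t) ≠ 0`. (d) `φ(t) = F_w(t,w) ≠ 0` in `K` (see `exists_kappa`). -/
def S_TAN : Prop :=
  ∀ (k : Type) [Field k] [CharZero k] (F : k[X][X]) (G : k[X]), F.Monic → Irreducible F →
    2 ≤ F.natDegree → (∃ a b c : k[X][X], a * F + b * derivative F + c * ds F = 1) →
    2 ≤ G.natDegree →
    (∀ i < F.natDegree, (F.coeff i).natDegree < (F.natDegree - i) * G.natDegree) →
    ∃ (K : Type) (_ : Field K) (κ : k →+* K) (t v0 v1 : K) (g : K[X]),
      (∀ p : k[X], p ≠ 0 → eval₂ κ v1 p ≠ 0) ∧
      vct κ F G v0 v1 = (X - C t) ^ 2 * g ∧ g.Separable ∧ g.eval t ≠ 0 ∧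
      (vct κ (derivative F) G v0 v1).eval t ≠ 0

/-- JOB SWP. A polynomial over a domain which degenerates to a polynomial with one double root has a Galois
group containing a transposition.

PROOF. Let `Ω` be an algebraic closure of `K`, `O = PowerSeries Ω` (a complete discrete valuation ring with
algebraically closed residue field, so henselian), `M` its field of fractions (or Laurent series), `N` an
algebraic closure of `M`. The polynomial `e₁` over `O` (image of `e` under `A → K[s] → O`) is monic, and
modulo `s` it is `(T - t)^2 g(T)`. Each root `ρ` of `g` in `Ω` is a simple root modulo `s`, so it lifts to a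
root in `O` (`HenselianLocalRing`, or `IsAdicComplete`), and the lifts are distinct; dividing by the product
of the `T - ρ'` one has `e₁ = Q(T) ∏ (T - ρ')` with `Q` monic of degree two over `O`, `Q ≡ (T - t)^2`
modulo `s`. `e₁(t) = Q(t) · unit` has order exactly one in `s` by the last hypothesis (its constant
coefficient is zero). So `Q` has no root in `M`: a root `r` lies in `O`, `r ≡ t`, the other root too, and
`Q(t) = (t - r)(t - r')` would be divisible by `s^2`. So `Q` is irreducible over `M`, it has two different
roots `α, β` in `N` (characteristic 0), different from the `ρ'`, and some automorphism of `N` over `M`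
exchanges them; it fixes the `ρ'`. As `ψ` is injective, `K₀ = Frac A` embeds in `M`; the separable
(= algebraic) closure of `K₀` embeds in `N` over `K₀` (`IsAlgClosed.lift`), its image contains all the roots
of `e₁` and is stable under the automorphism (it is normal over `K₀`: `AlgEquiv.restrictNormal` and so on).
The characteristic of `A` is zero. -/
def S_SWP : Prop :=
  ∀ (A K₀ K : Type) [CommRing A] [IsDomain A] [Field K₀] [Algebra A K₀] [IsFractionRing A K₀] [Field K]
    [CharZero K] (e : A[X]) (ψ : A →+* K[X]) (t : K) (g : K[X]), e.Monic → Function.Injective ψ →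
    e.map ((evalRingHom 0).comp ψ) = (X - C t) ^ 2 * g → g.Separable → g.eval t ≠ 0 →
    ((e.map ψ).eval (C t)).coeff 1 ≠ 0 →
    HasSwap (e.map (algebraMap A K₀))

/-- JOB FUL. Double transitivity and a transposition give the full symmetric group.

PROOF. The permutations of the (finite) root set induced by automorphisms form a subgroup of
`Equiv.Perm (p.rootSet _)`; by `HasSwap` it contains a transposition `swap a b`, by `DT` (conjugation) all
transpositions `swap c d`, `c ≠ d`, and these generate (`Equiv.Perm.closure_isSwap`). -/
def S_FUL : Prop :=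
  ∀ (k : Type) [Field k] (p : k[X]), p.Separable → DT p → HasSwap p → Full p

/-- JOB SPC. Hilbert's irreducibility theorem for the full symmetric group.

PROOF. Let `A = MvPolynomial ι k` (integrally closed), `K₀` its field of fractions (characteristic 0), `L` a
splitting field of `e` over `K₀`, with the roots `θ_1, ..., θ_N` (distinct). Let `B` be the subalgebra of `L`
generated over `A` by the roots (integral over `A`), `Θ ∈ B` a primitive element of `L` over `K₀`
(`Field.exists_primitive_element`, times an element of `A` and so on; or a combination of the `θ_i` with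
integral coefficients), `Ψ = minpoly A Θ`, monic and irreducible over `A`, of degree `[L : K₀] = N!` (by the
hypothesis the Galois group has `N!` elements). By `Pool.Agent.Q45.HI.ud_irr` the set of `v` with `Ψ(v)`
reducible over `k` is UD for all ε. Let `Ψ(v)` be irreducible. Take a maximal ideal of `B` over the kernel of
`spc k v : A → k` (`Ideal.exists_ideal_over_maximal_of_isIntegral` or similar), so one gets
`φ : B → AlgebraicClosure k` over `spc k v`. Then `e(v) = ∏ (T - φ(θ_i))`, `φ(Θ)` is a root of `Ψ(v)` and it lies in
the field generated by the roots `φ(θ_i)`, so the splitting field of `e(v)` over `k` has degree at least `N!`.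
If `e(v)` had fewer than `N` distinct roots the degree would be at most `(N - 1)!` (for `N ≥ 2`; `N ≤ 1` is
trivial); so it is separable with `N` roots, the Galois group embeds in the permutations of the roots and it
has at least `N!` elements, so it is everything. See `ud_two` in NE/Res for a model. -/
def S_SPC : Prop :=
  ∀ (k : Type) [Field k] [NumberField k] (ι : Type) [Fintype ι] [Nonempty ι]
    (e : (MvPolynomial ι k)[X]), e.Monic →
    Full (e.map (algebraMap (MvPolynomial ι k) (FractionRing (MvPolynomial ι k)))) →
    ∀ ε : ℝ, 0 < ε → UD ε {v : ι → ℤ | ¬ Full (e.map (spc k v))}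

/-- JOB DTG. Double transitivity over the field of fractions.

PROOF. `AdjoinRoot (quo e)` is a domain which is free over `A` (`quo e` and `e` are monic), and
`AdjoinRoot (quo (e.map (algebraMap A K₀)))` is its localization at the nonzero elements of `A`, hence a
domain (use `sp1`, `sp2`, `quo_map` of NE/Res; every element of the second ring is the image of an element of
the first one divided by an element of `A`, and the map is injective). Then `dt_of_dom` of NE/Dt and
`irr_of_quo` of NE/DensC. -/
def S_DTG : Prop :=
  ∀ (A K₀ : Type) [CommRing A] [IsDomain A] [Field K₀] [Algebra A K₀] [IsFractionRing A K₀] (e : A[X]),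
    e.Monic → 1 < e.natDegree → IsDomain (AdjoinRoot (quo e)) → DT (e.map (algebraMap A K₀))

end Pool.Agent.Q45.SN
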