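import Pool.Agent.Q45.SN.Stm
import Pool.Agent.Q149.SN.Tan
import Pool.Agent.Q149.SN.Swp
import Pool.Agent.Q299.SN.FUL
import Pool.Agent.Q299.SN.SPC
import Pool.Agent.Q299.SN.DTG

/-!
# The full symmetric group for almost all sections
-/

set_option autoImplicit false
set_option linter.all false

open Polynomial
open scoped Classical

namespace Pool.Agent.Q45.SN

open Pool.Agent.Q45.HI (spc)
open Pool.Agent.W275.UB (UD)
open Pool.Agent.Q45.TG (ds)
open Pool.Agent.Q45.NE (eG sec Phi2 quo DT phi2_eq phi2_lead phi2_spc exists_unit exists_kappa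
  trans_core quo_monic)

section sub

variable {k K : Type} [Field k] [Field K] (κ : k →+* K) (v0 v1 : K)

/-- The substitution of the two parameters. -/
noncomputable def psi : MvPolynomial (Fin 2) k →+* K[X] :=
  MvPolynomial.eval₂Hom ((C : K →+* K[X]).comp κ) (![C v0 + X, C v1] : Fin 2 → K[X])

theorem psi_C (a : k) : psi κ v0 v1 (MvPolynomial.C a) = C (κ a) := by
  unfold psi
  rw [MvPolynomial.eval₂Hom_C]
  rfl

theorem psi_0 : psi κ v0 v1 (MvPolynomial.X 0) = C v0 + X := by
  unfold psi
  rw [MvPolynomial.eval₂Hom_X']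
  rfl

theorem psi_1 : psi κ v0 v1 (MvPolynomial.X 1) = C v1 := by
  unfold psi
  rw [MvPolynomial.eval₂Hom_X']
  rfl

theorem psi_inj (hv : ∀ p : k[X], p ≠ 0 → eval₂ κ v1 p ≠ 0) : Function.Injective (psi κ v0 v1) := by
  let α : MvPolynomial (Fin 1) k →+* K := MvPolynomial.eval₂Hom κ fun _ => v1
  have hα : Function.Injective α := by
    rw [injective_iff_map_eq_zero]
    intro p hp
    by_contra hne
    have h1 : MvPolynomial.uniqueAlgEquiv k (Fin 1) p ≠ 0 := by
      rw [Ne, EmbeddingLike.map_eq_zero_iff]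
      exact hne
    apply hv _ h1
    have h2 : (eval₂RingHom κ v1).comp
        ((MvPolynomial.uniqueAlgEquiv k (Fin 1) : MvPolynomial (Fin 1) k ≃ₐ[k] k[X]) :
          MvPolynomial (Fin 1) k →+* k[X]) = α := by
      refine MvPolynomial.ringHom_ext (fun a => ?_) fun i => ?_
      · show eval₂ κ v1 (MvPolynomial.eval₂ C (fun _ => X) (MvPolynomial.C a)) = α _
        rw [MvPolynomial.eval₂_C, eval₂_C]
        exact (MvPolynomial.eval₂Hom_C _ _ _).symm
      · show eval₂ κ v1 (MvPolynomial.eval₂ C (fun _ => X) (MvPolynomial.X i)) = α _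
        rw [MvPolynomial.eval₂_X, eval₂_X]
        exact (MvPolynomial.eval₂Hom_X' κ (fun _ => v1) i).symm
    have h3 := congrArg (fun φ : MvPolynomial (Fin 1) k →+* K => φ p) h2
    exact h3.trans hp
  let sh : K[X] →+* K[X] := eval₂RingHom C (C v0 + X)
  have hsh : Function.Injective sh := by
    let sh' : K[X] →+* K[X] := eval₂RingHom C (X - C v0)
    have h1 : sh'.comp sh = RingHom.id K[X] := by
      refine Polynomial.ringHom_ext (fun a => ?_) ?_
      · show sh' (sh (C a)) = C a
        simp only [sh, sh', coe_eval₂RingHom, eval₂_C]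
      · show sh' (sh X) = X
        simp only [sh, sh', coe_eval₂RingHom, eval₂_X, eval₂_add, eval₂_C]
        ring
    intro x y hxy
    have h2 := congrArg sh' hxy
    have h3 : ∀ z, sh' (sh z) = z := fun z => congrArg (fun φ : K[X] →+* K[X] => φ z) h1
    rw [h3, h3] at h2
    exact h2
  have h4 : (sh.comp (mapRingHom α)).comp
      ((MvPolynomial.finSuccEquiv k 1 : MvPolynomial (Fin 2) k ≃ₐ[k] (MvPolynomial (Fin 1) k)[X]) :
        MvPolynomial (Fin 2) k →+* (MvPolynomial (Fin 1) k)[X]) = psi κ v0 v1 := by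
    refine MvPolynomial.ringHom_ext (fun a => ?_) fun i => ?_
    · show sh (mapRingHom α (MvPolynomial.finSuccEquiv k 1 (MvPolynomial.C a))) = _
      have h5 : MvPolynomial.finSuccEquiv k 1 (MvPolynomial.C a) = C (MvPolynomial.C a) :=
        (MvPolynomial.finSuccEquiv k 1).commutes a
      rw [h5, psi_C, coe_mapRingHom, map_C]
      have h6 : α (MvPolynomial.C a) = κ a := MvPolynomial.eval₂Hom_C _ _ _
      rw [h6]
      exact eval₂_C _ _
    · fin_cases i
      · show sh (mapRingHom α (MvPolynomial.finSuccEquiv k 1 (MvPolynomial.X 0))) =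
          psi κ v0 v1 (MvPolynomial.X 0)
        rw [MvPolynomial.finSuccEquiv_X_zero, psi_0, coe_mapRingHom, map_X]
        exact eval₂_X _ _
      · show sh (mapRingHom α (MvPolynomial.finSuccEquiv k 1 (MvPolynomial.X 1))) =
          psi κ v0 v1 (MvPolynomial.X 1)
        have h5 : MvPolynomial.finSuccEquiv k 1 (MvPolynomial.X 1) = C (MvPolynomial.X 0) :=
          MvPolynomial.finSuccEquiv_X_succ (j := (0 : Fin 1))
        rw [h5, psi_1, coe_mapRingHom, map_C]
        have h6 : α (MvPolynomial.X 0) = v1 := MvPolynomial.eval₂Hom_X' κ (fun _ => v1) 0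
        rw [h6]
        exact eval₂_C _ _
  rw [← h4]
  exact (hsh.comp (Polynomial.map_injective α hα)).comp (MvPolynomial.finSuccEquiv k 1).injective

variable (F : k[X][X]) (G : k[X])

theorem phi_map (φ : MvPolynomial (Fin 2) k →+* K[X]) :
    (Phi2 F G).map φ = (F.map (mapRingHom (φ.comp MvPolynomial.C))).eval
      (C (φ (MvPolynomial.X 0)) + C (φ (MvPolynomial.X 1)) * X +
        G.map (φ.comp MvPolynomial.C)) := by
  rw [phi2_eq]
  have h1 : ((F.map (mapRingHom (MvPolynomial.C : k →+* MvPolynomial (Fin 2) k))).map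
      (mapRingHom φ)).eval (mapRingHom φ (C (MvPolynomial.X 0) + C (MvPolynomial.X 1) * X +
        G.map MvPolynomial.C)) = mapRingHom φ ((F.map (mapRingHom (MvPolynomial.C :
      k →+* MvPolynomial (Fin 2) k))).eval (C (MvPolynomial.X 0) + C (MvPolynomial.X 1) * X +
        G.map MvPolynomial.C)) := Polynomial.eval_map_apply _ _
  rw [Polynomial.map_map, Polynomial.mapRingHom_comp] at h1
  have h3 : mapRingHom φ (C (MvPolynomial.X 0) + C (MvPolynomial.X 1) * X +
      G.map MvPolynomial.C) = C (φ (MvPolynomial.X 0)) + C (φ (MvPolynomial.X 1)) * X +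
        G.map (φ.comp MvPolynomial.C) := by
    rw [map_add, map_add, map_mul, coe_mapRingHom, map_C, map_C, map_X, Polynomial.map_map]
  rw [h3] at h1
  exact h1.symm

theorem sct_eq : sct κ G v0 v1 = C v0 + C v1 * X + G.map κ := by
  unfold sct
  ring

/-- The first order term at `t`. -/
theorem coeff_one (t : K) : (((Phi2 F G).map (psi κ v0 v1)).eval (C t)).coeff 1 =
    (vct κ (derivative F) G v0 v1).eval t := by
  -- the polynomial `F(t, w)` over `K`
  set Ft : K[X] := F.map ((evalRingHom t).comp (mapRingHom κ)) with hFt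
  set r : K := v0 + v1 * t + (G.map κ).eval t with hr
  have h0 : (psi κ v0 v1).comp MvPolynomial.C = C.comp κ := RingHom.ext fun a => psi_C κ v0 v1 a
  have h1 : ((Phi2 F G).map (psi κ v0 v1)).eval (C t) = taylor r Ft := by
    rw [phi_map, h0, psi_0, psi_1]
    set x : K[X][X] := C (C v0 + X) + C (C v1) * X + G.map (C.comp κ) with hx
    have h2 : evalRingHom (C t) ((F.map (mapRingHom (C.comp κ))).eval x) =
        ((F.map (mapRingHom (C.comp κ))).map (evalRingHom (C t))).eval (evalRingHom (C t) x) :=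
      (Polynomial.eval_map_apply _ _).symm
    rw [coe_evalRingHom] at h2
    rw [h2, Polynomial.map_map]
    have h3 : x.eval (C t) = X + C r := by
      rw [hx, eval_add, eval_add, eval_mul, eval_C, eval_C, eval_X, ← Polynomial.map_map,
        eval_map, eval₂_hom, hr, map_add, map_add, map_mul]
      ring
    rw [h3, hFt, taylor_apply, comp, eval₂_map, eval_map]
    congr 1
    refine Polynomial.ringHom_ext (fun a => ?_) ?_
    · show (mapRingHom (C.comp κ) (C a)).eval (C t) = C ((mapRingHom κ (C a)).eval t)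
      rw [coe_mapRingHom, coe_mapRingHom, map_C, map_C, eval_C, eval_C]
      rfl
    · show (mapRingHom (C.comp κ) X).eval (C t) = C ((mapRingHom κ X).eval t)
      rw [coe_mapRingHom, coe_mapRingHom, map_X, map_X, eval_X, eval_X]
  rw [h1, taylor_coeff_one]
  unfold vct
  have h4 : evalRingHom t ((derivative F).map (mapRingHom κ) |>.eval (sct κ G v0 v1)) =
      (((derivative F).map (mapRingHom κ)).map (evalRingHom t)).eval
        (evalRingHom t (sct κ G v0 v1)) := (Polynomial.eval_map_apply _ _).symm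
  rw [coe_evalRingHom] at h4
  rw [h4, Polynomial.map_map, hFt, derivative_map, sct_eq]
  congr 1
  rw [hr, eval_add, eval_add, eval_mul, eval_C, eval_C, eval_X]

theorem psi_zero : (evalRingHom 0).comp (psi κ v0 v1) =
    MvPolynomial.eval₂Hom κ (![v0, v1] : Fin 2 → K) := by
  refine MvPolynomial.ringHom_ext (fun a => ?_) fun i => ?_
  · rw [RingHom.comp_apply, psi_C, MvPolynomial.eval₂Hom_C, coe_evalRingHom, eval_C]
  · fin_cases i
    · show (evalRingHom 0) (psi κ v0 v1 (MvPolynomial.X 0)) = MvPolynomial.eval₂Hom κ _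
        (MvPolynomial.X 0)
      rw [psi_0, MvPolynomial.eval₂Hom_X', coe_evalRingHom, eval_add, eval_C, eval_X, add_zero]
      rfl
    · show (evalRingHom 0) (psi κ v0 v1 (MvPolynomial.X 1)) = MvPolynomial.eval₂Hom κ _
        (MvPolynomial.X 1)
      rw [psi_1, MvPolynomial.eval₂Hom_X', coe_evalRingHom, eval_C]
      rfl

theorem phi_zero : (Phi2 F G).map ((evalRingHom 0).comp (psi κ v0 v1)) = vct κ F G v0 v1 := by
  rw [← Polynomial.map_map, phi_map]
  have h0 : (psi κ v0 v1).comp MvPolynomial.C = C.comp κ := RingHom.ext fun a => psi_C κ v0 v1 a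
  rw [h0, psi_0, psi_1]
  have h1 : mapRingHom (evalRingHom 0) ((F.map (mapRingHom (C.comp κ))).eval
      (C (C v0 + X) + C (C v1) * X + G.map (C.comp κ))) =
      ((F.map (mapRingHom (C.comp κ))).map (mapRingHom (evalRingHom 0))).eval
        (mapRingHom (evalRingHom 0) (C (C v0 + X) + C (C v1) * X + G.map (C.comp κ))) :=
    (Polynomial.eval_map_apply _ _).symm
  have h2 : (evalRingHom (0 : K)).comp (C.comp κ) = κ := RingHom.ext fun a => eval_C
  rw [coe_mapRingHom] at h1
  rw [h1, Polynomial.map_map, Polynomial.mapRingHom_comp, h2]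
  unfold vct
  congr 1
  rw [sct_eq, Polynomial.map_add, Polynomial.map_add, Polynomial.map_mul, map_C, map_C, map_X,
    Polynomial.map_map, h2, coe_evalRingHom, eval_add, eval_C, eval_X, add_zero, eval_C]

end sub

section irr

variable {A : Type} [CommRing A] [IsDomain A]

/-- Irreducibility over a domain. -/
theorem irr_of_quo' {p : A[X]} (hp : p.Monic) (hn : 1 < p.natDegree)
    (hdom : IsDomain (AdjoinRoot (quo p))) : Irreducible p := by
  haveI := hdom
  have hq := quo_monic hp
  haveI : Nontrivial (AdjoinRoot p) := AdjoinRoot.nontrivial p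
    (natDegree_pos_iff_degree_pos.1 (by omega)).ne'
  have h1 : (quo p).natDegree = p.natDegree - 1 := by
    unfold quo
    rw [natDegree_divByMonic _ (monic_X_sub_C _), natDegree_X_sub_C, hp.natDegree_map]
  have hinj : Function.Injective (AdjoinRoot.of (quo p)) := by
    rw [injective_iff_map_eq_zero]
    intro a ha
    by_contra hne
    rw [← AdjoinRoot.mk_C] at ha
    refine AdjoinRoot.mk_ne_zero_of_natDegree_lt hq (C_ne_zero.2 hne) ?_ ha
    rw [natDegree_C, h1]
    omega
  have h2 : IsDomain (AdjoinRoot p) := hinj.isDomain _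
  have h3 : Prime p := (Ideal.span_singleton_prime hp.ne_zero).1
    ((Ideal.Quotient.isDomain_iff_prime _).1 h2)
  exact h3.irreducible

end irr

section full

variable {k : Type} [Field k] {p : k[X]}

theorem full_of_eq {p q : k[X]} (hs : q.Separable)
    (h : q.rootSet (SeparableClosure k) = p.rootSet (SeparableClosure k)) (hp : Full p) : Full q := by
  refine ⟨hs, fun π => ?_⟩
  obtain ⟨σ, hσ⟩ := hp.2 ((Equiv.setCongr h).symm.trans (π.trans (Equiv.setCongr h)))
  refine ⟨σ, fun x => ?_⟩
  have h1 := hσ ⟨x, by rw [← h]; exact x.2⟩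
  exact h1

theorem full_of_C_mul {u : k} (hu : u ≠ 0) (h : Full (C u * p)) : Full p := by
  have hun : IsUnit (C u : k[X]) := (isUnit_iff_ne_zero.2 hu).map C
  have hs : p.Separable := h.1.of_mul_right
  refine full_of_eq hs ?_ h
  have h0 : p ≠ 0 := hs.ne_zero
  ext x
  rw [mem_rootSet_of_ne h0, mem_rootSet_of_ne (mul_ne_zero hun.ne_zero h0), map_mul, aeval_C,
    mul_eq_zero]
  constructor
  · exact fun h1 => Or.inr h1
  · rintro (h1 | h1)
    · exact absurd h1 ((map_ne_zero_iff _ (algebraMap k (SeparableClosure k)).injective).2 hu)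
    · exact h1

end full

section ud

variable {k : Type} [Field k] [NumberField k] {F : k[X][X]}

/-- **The full symmetric group for almost all sections.** -/
theorem ud_full (hF : F.Monic) (hirr : Irreducible F) (hn : 1 < F.natDegree)
    (hgi : ∀ (k' : Type) [Field k'] [Algebra k k'], Irreducible (F.map (mapRingHom (algebraMap k k'))))
    (hsm : ∃ a b c : k[X][X], a * F + b * derivative F + c * ds F = 1)
    {G : k[X]} (hG : 2 ≤ G.natDegree)
    (hdeg : ∀ i < F.natDegree, (F.coeff i).natDegree < (F.natDegree - i) * G.natDegree)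
    (ε : ℝ) (hε : 0 < ε) : UD ε {v : Fin 2 → ℤ | ¬ Full (eG F (sec G v))} := by
  obtain ⟨u, hu, hm⟩ := exists_unit hF (by omega) hG hdeg
  set e := C (MvPolynomial.C u) * Phi2 F G with he
  have hev : ∀ v : Fin 2 → ℤ, e.map (spc k v) = C u * eG F (sec G v) := by
    intro v
    rw [he, Polynomial.map_mul, map_C, phi2_spc]
    have h3 : spc k v (MvPolynomial.C u) = u := MvPolynomial.eval_C _
    rw [h3]
  have hed : e.natDegree = F.natDegree * G.natDegree := by
    rw [he, natDegree_C_mul ((map_ne_zero_iff _ (MvPolynomial.C_injective _ k)).2 hu),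
      (phi2_lead hF (by omega) hG hdeg).1]
  have hN : 1 < e.natDegree := by
    rw [hed]
    calc 1 < 2 * 2 := by norm_num
      _ ≤ F.natDegree * G.natDegree := Nat.mul_le_mul hn hG
  obtain ⟨K, _, κ, h1, h2⟩ := exists_kappa hF hirr (by omega)
  have h3 : Irreducible (F.map (mapRingHom (κ.comp (C.comp C)))) := by
    letI : Algebra k K := (κ.comp (C.comp C)).toAlgebra
    exact hgi K
  have hdom : IsDomain (AdjoinRoot (quo e)) := trans_core hF (by omega) h1 h2 h3 G hm hu rfl
  let K₀ := FractionRing (MvPolynomial (Fin 2) k)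
  have hDT : DT (e.map (algebraMap (MvPolynomial (Fin 2) k) K₀)) :=
    Pool.Agent.Q299.SN.DTG.main _ _ e hm hN hdom
  have hirr' : Irreducible (e.map (algebraMap (MvPolynomial (Fin 2) k) K₀)) :=
    (hm.irreducible_iff_irreducible_map_fraction_map (K := K₀)).1 (irr_of_quo' hm hN hdom)
  haveI : CharZero K₀ := charZero_of_injective_algebraMap
    (IsFractionRing.injective (MvPolynomial (Fin 2) k) K₀)
  have hsep : (e.map (algebraMap (MvPolynomial (Fin 2) k) K₀)).Separable := hirr'.separable
  -- the transposition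
  obtain ⟨K', _, κ', t, v0, v1, g, hv1, hg, hgs, hgt, hdt⟩ :=
    Pool.Agent.Q149.SN.main k F G hF hirr hn hsm hG hdeg
  haveI : CharZero K' := charZero_of_injective_ringHom κ'.injective
  have hκu : κ' u ≠ 0 := (map_ne_zero_iff _ κ'.injective).2 hu
  have hun : IsUnit (C (κ' u) : K'[X]) := (isUnit_iff_ne_zero.2 hκu).map C
  have hsw : Pool.Agent.Q45.SN.HasSwap (e.map (algebraMap (MvPolynomial (Fin 2) k) K₀)) := by
    refine Pool.Agent.Q149.SN.Swp.main (MvPolynomial (Fin 2) k) K₀ K' e (psi κ' v0 v1) t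
      (C (κ' u) * g) hm (psi_inj κ' v0 v1 hv1) ?_ ?_ ?_ ?_
    · rw [he, Polynomial.map_mul, phi_zero, hg, map_C, RingHom.comp_apply, psi_C, coe_evalRingHom,
        eval_C]
      ring
    · exact Separable.unit_mul hun hgs
    · rw [eval_mul, eval_C]
      exact mul_ne_zero hκu hgt
    · rw [he, Polynomial.map_mul, map_C, psi_C, eval_mul, eval_C, coeff_C_mul, coeff_one]
      exact mul_ne_zero hκu hdt
  have hfull := Pool.Agent.Q299.SN.FUL.main K₀ _ hsep hDT hsw
  have hud := Pool.Agent.Q299.SN.SPC.main k (Fin 2) e hm hfull ε hε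
  refine Pool.Agent.Y706.UD_mono ?_ hud
  intro v hv hv'
  apply hv
  rw [hev] at hv'
  exact full_of_C_mul hu hv'

end ud

end Pool.Agent.Q45.SN
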